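import Mathlib
import Pool.Agent.H20.Col

set_option autoImplicit false

namespace Pool.Agent.Results.MP_93b7f4_co.NotCritical

open SimpleGraph

/-- A graph is k-critical when its chromatic number is k and every proper subgraph has
smaller chromatic number. -/
def Critical {V : Type} (k : ℕ) (G : SimpleGraph V) : Prop :=
  G.chromaticNumber = k ∧ ∀ G' : G.Subgraph, G' ≠ ⊤ → G'.coe.chromaticNumber < k

def b1 : ℕ := 143848058462843476348125680702
def bG : ℕ := 108821294554955268510011466615294383484214607000463349338627816423277538966845289797686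
def bH : ℕ := 108821294554955268510011466615294383484214607000463349338627816423277538966810929535030
def cols : ℕ := 20559824229007873301211404116694995169802450263366266825107540951721806725003179840068726924714431843790658591387392370080378758585488991157622342451339798912046412174233746110993772692474229664540176958449115933250877911477802894791120627644731796475239147776681956590940232015981140768476642116071976053111346639279234123605842994357401743672958786102423146725759455789709785790856445648129979720723565880415439020966122187367788249276770501440364083052793125337569155009041137979104770627049609150401462132989854589552754903875054886706486579096544554732844065905122796301621133312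

def A : SimpleGraph (Fin 10) where
  Adj a b := b1.testBit (a.val * 10 + b.val) = true
  symm := ⟨by decide⟩
  loopless := ⟨by decide⟩

instance : DecidableRel A.Adj := fun _ _ => inferInstanceAs (Decidable (_ = true))

def B : SimpleGraph (Fin 17) where
  Adj a b := bG.testBit (a.val * 17 + b.val) = true
  symm := ⟨by decide +kernel⟩
  loopless := ⟨by decide +kernel⟩

instance : DecidableRel B.Adj := fun _ _ => inferInstanceAs (Decidable (_ = true))

def col (a b v : Fin 10) : Fin 4 :=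
  ⟨(cols >>> (20 * (a.val * 10 + b.val) + 2 * v.val)) % 4, Nat.mod_lt _ (by norm_num)⟩

theorem col_ok : ∀ a b : Fin 10, A.Adj a b → ∀ p q : Fin 10, A.Adj p q →
    ¬ (p = a ∧ q = b) → ¬ (p = b ∧ q = a) → col a b p ≠ col a b q := by
  decide +kernel

theorem lt_of_col {V : Type} {G : SimpleGraph V} (h : G.Colorable 4) :
    G.chromaticNumber < (5 : ℕ) :=
  lt_of_le_of_lt h.chromaticNumber_le (by norm_num)

theorem col_of_lt {V : Type} {G : SimpleGraph V} (h : G.chromaticNumber < (5 : ℕ)) :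
    G.Colorable 4 := by
  rw [← chromaticNumber_le_iff_colorable]
  exact Order.le_of_lt_add_one h

theorem A_critical : Critical 5 A := by
  have h4 : ¬ A.Colorable 4 :=
    Pool.Agent.H20.Col.not_colorable A b1 4 (fun _ _ h => h) (by decide +kernel)
  have h5 : A.Colorable 5 :=
    ⟨Coloring.mk ![0, 1, 2, 1, 3, 2, 0, 3, 4, 1] (by decide +kernel)⟩
  refine ⟨le_antisymm h5.chromaticNumber_le (not_lt.1 fun h => h4 (col_of_lt h)), ?_⟩
  intro G' hG'
  have : ∃ a b, A.Adj a b ∧ ¬ G'.Adj a b := by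
    by_contra hc
    push Not at hc
    apply hG'
    have hnb : ∀ a : Fin 10, ∃ b, A.Adj a b := by decide +kernel
    ext a b
    · obtain ⟨b, hb⟩ := hnb a
      simpa using G'.edge_vert (hc a b hb)
    · exact ⟨fun h => G'.adj_sub h, fun h => hc a b h⟩
  obtain ⟨a, b, hab, hn⟩ := this
  refine lt_of_col ⟨Coloring.mk (fun v => col a b v.val) fun {p q} h => ?_⟩
  have h' : G'.Adj p.val q.val := h
  refine col_ok a b hab _ _ (G'.adj_sub h') ?_ ?_
  · rintro ⟨h1, h2⟩
    exact hn (h1 ▸ h2 ▸ h')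
  · rintro ⟨h1, h2⟩
    exact hn (h1 ▸ h2 ▸ h'.symm)

theorem B_not_critical : ¬ Critical 5 B := by
  rintro ⟨-, h⟩
  have h1 := h ((⊤ : B.Subgraph).deleteEdges {s(1, 2)}) (by
    intro e
    have : ((⊤ : B.Subgraph).deleteEdges {s(1, 2)}).Adj 1 2 := by
      rw [e]; show B.Adj 1 2; decide +kernel
    simp at this)
  obtain ⟨C⟩ := col_of_lt h1
  have hb : ∀ a b : Fin 17, bH.testBit (a.val * 17 + b.val) = true →
      B.Adj a b ∧ s(a, b) ≠ s(1, 2) := by decide +kernel
  refine Pool.Agent.H20.Col.not_colorable (B.deleteEdges {s(1, 2)}) bH 4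
    (fun a b hab => by simpa using hb a b hab) (by decide +kernel)
    ⟨Coloring.mk (fun v => C ⟨v, Set.mem_univ v⟩) fun {p q} hpq => C.valid ?_⟩
  simpa using hpq

def i1 : Fin 3 ↪ Fin 10 := ⟨fun i => ⟨i.val, by omega⟩, fun _ _ h => Fin.ext (by simpa using h)⟩
def g1 : Fin 10 ↪ Fin 17 := ⟨fun i => ⟨i.val, by omega⟩, fun _ _ h => Fin.ext (by simpa using h)⟩
def g2 : Fin 10 ↪ Fin 17 :=
  ⟨fun i => if i.val < 3 then ⟨i.val, by omega⟩ else ⟨i.val + 7, by omega⟩, by decide +kernel⟩

/-- Dirac's construction applied to two 5-critical graphs along a triangle can fail to give a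
5-critical graph. -/
theorem result : ∃ (k h n₁ n₂ n : ℕ) (G₁ : SimpleGraph (Fin n₁)) (G₂ : SimpleGraph (Fin n₂))
    (ι₁ : Fin h ↪ Fin n₁) (ι₂ : Fin h ↪ Fin n₂) (x : Fin h) (y₁ : Fin n₁) (y₂ : Fin n₂)
    (G : SimpleGraph (Fin n)) (f₁ : Fin n₁ ↪ Fin n) (f₂ : Fin n₂ ↪ Fin n),
    4 ≤ k ∧ 1 ≤ h ∧ h + 2 ≤ k ∧ Critical k G₁ ∧ Critical k G₂ ∧
    (∀ i j, i ≠ j → G₁.Adj (ι₁ i) (ι₁ j)) ∧ (∀ i j, i ≠ j → G₂.Adj (ι₂ i) (ι₂ j)) ∧
    (∀ i, ι₁ i ≠ y₁) ∧ (∀ i, ι₂ i ≠ y₂) ∧ G₁.Adj (ι₁ x) y₁ ∧ G₂.Adj (ι₂ x) y₂ ∧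
    (∀ a b, f₁ a = f₂ b ↔ ∃ i, a = ι₁ i ∧ b = ι₂ i) ∧
    (∀ p, (∃ a, f₁ a = p) ∨ ∃ b, f₂ b = p) ∧
    (∀ p q, G.Adj p q ↔
      (∃ a b, G₁.Adj a b ∧ s(a, b) ≠ s(ι₁ x, y₁) ∧ f₁ a = p ∧ f₁ b = q) ∨
      (∃ a b, G₂.Adj a b ∧ s(a, b) ≠ s(ι₂ x, y₂) ∧ f₂ a = p ∧ f₂ b = q) ∨
      s(p, q) = s(f₁ y₁, f₂ y₂)) ∧
    ¬ Critical k G := by
  refine ⟨5, 3, 10, 10, 17, A, A, i1, i1, 0, 3, 3, B, g1, g2, by norm_num, by norm_num,
    by norm_num, A_critical, A_critical, by decide +kernel, by decide +kernel,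
    by decide +kernel, by decide +kernel, by decide +kernel, by decide +kernel,
    by decide +kernel, by decide +kernel, by decide +kernel, B_not_critical⟩

end Pool.Agent.Results.MP_93b7f4_co.NotCritical
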